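import Mathlib

/-!
# Non-uniqueness for `φ (φ x + φ (x-1) + φ (x-2) + φ (x-3)) = x`

We build, for every `p ∈ (0,1)`, a strictly increasing homeomorphism `A` of the line with
`A (x+1) = A x + 1` and `A (4 s) = 2 A s + 2 A (s + 1/2) - 2 p`; conjugating the doubling map by `A`
gives a continuous increasing solution of the equation with `r = 4` which is affine only if
`p = 1/2`.
-/

namespace Pool.Agent.Results.MP_39cb5d_an.NotUnique

open Set Filter Topology

/-- Distance to the nearest integer. -/
noncomputable def d (x : ℝ) : ℝ := |x - round x|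

lemma d_eq (x : ℝ) : d x = ‖(x : UnitAddCircle)‖ := by
  rw [UnitAddCircle.norm_eq, d]

lemma d_lip (x y : ℝ) : |d x - d y| ≤ |x - y| := by
  rw [d_eq, d_eq]
  refine (abs_norm_sub_norm_le _ _).trans ?_
  rw [← AddCircle.coe_sub, UnitAddCircle.norm_eq]
  simpa using round_le (x - y) 0

lemma d_cont : Continuous d := by
  have h : LipschitzWith 1 d := by
    refine LipschitzWith.of_dist_le_mul fun x y => ?_
    simpa [Real.dist_eq] using d_lip x y
  exact h.continuous

lemma d_nonneg (x : ℝ) : 0 ≤ d x := abs_nonneg _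

lemma d_le (x : ℝ) : d x ≤ 1 / 2 := abs_sub_round x

lemma d_zero : d 0 = 0 := by simp [d]

lemma d_add_one (x : ℝ) : d (x + 1) = d x := by
  have : round (x + 1) = round x + 1 := by
    simp
  simp [d, this]

lemma d_eq_min (x : ℝ) : d x = min (Int.fract x) (1 - Int.fract x) := abs_sub_round_eq_min x

lemma d_half (x : ℝ) : d (x + 1 / 2) = 1 / 2 - d x := by
  rw [d_eq_min, d_eq_min]
  have h0 := Int.fract_nonneg x
  have h1 := Int.fract_lt_one x
  have hx := Int.floor_add_fract x
  rcases lt_or_ge (Int.fract x) (1 / 2) with h | h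
  · have : Int.fract (x + 1 / 2) = Int.fract x + 1 / 2 := by
      rw [Int.fract_eq_iff]
      refine ⟨by linarith, by linarith, ⌊x⌋, by linarith⟩
    rw [this, min_def, min_def]
    split_ifs <;> linarith
  · have : Int.fract (x + 1 / 2) = Int.fract x - 1 / 2 := by
      rw [Int.fract_eq_iff]
      refine ⟨by linarith, by linarith, ⌊x⌋ + 1, by push_cast; linarith⟩
    rw [this, min_def, min_def]
    split_ifs <;> linarith

/-- The two auxiliary piecewise linear maps. -/
noncomputable def u (x : ℝ) : ℝ := 2 * x + 2 * d x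
/-- The two auxiliary piecewise linear maps. -/
noncomputable def v (x : ℝ) : ℝ := 2 * x - 2 * d x

lemma u_cont : Continuous u := by unfold u; exact (continuous_const.mul continuous_id).add (continuous_const.mul d_cont)
lemma v_cont : Continuous v := by unfold v; exact (continuous_const.mul continuous_id).sub (continuous_const.mul d_cont)

lemma u_mono : Monotone u := by
  intro x y h
  have := d_lip x y
  rw [abs_sub_comm x y, abs_of_nonneg (sub_nonneg.2 h)] at this
  have := (abs_le.1 this).2
  unfold u; linarith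

lemma v_mono : Monotone v := by
  intro x y h
  have := d_lip x y
  rw [abs_sub_comm x y, abs_of_nonneg (sub_nonneg.2 h)] at this
  have := (abs_le.1 this).1
  unfold v; linarith

lemma u_add_one (x : ℝ) : u (x + 1) = u x + 2 := by unfold u; rw [d_add_one]; ring
lemma v_add_one (x : ℝ) : v (x + 1) = v x + 2 := by unfold v; rw [d_add_one]; ring
lemma u_zero : u 0 = 0 := by simp [u, d_zero]
lemma v_zero : v 0 = 0 := by simp [v, d_zero]
lemma u_half (x : ℝ) : u (x + 1 / 2) = v x + 2 := by unfold u v; rw [d_half]; ring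
lemma v_half (x : ℝ) : v (x + 1 / 2) = u x := by unfold u v; rw [d_half]; ring

/-- The bounded continuous function `d`. -/
noncomputable def dB : BoundedContinuousFunction ℝ ℝ :=
  BoundedContinuousFunction.ofNormedAddCommGroup d d_cont (1 / 2) fun x => by
    rw [Real.norm_eq_abs, abs_of_nonneg (d_nonneg x)]; exact d_le x

/-- The contraction. -/
noncomputable def T (p : ℝ) (w : BoundedContinuousFunction ℝ ℝ) : BoundedContinuousFunction ℝ ℝ :=
  (p / 2) • w.compContinuous ⟨u, u_cont⟩ + ((1 - p) / 2) • w.compContinuous ⟨v, v_cont⟩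
    + (2 * p - 1) • dB

lemma T_apply (p : ℝ) (w : BoundedContinuousFunction ℝ ℝ) (x : ℝ) :
    T p w x = p / 2 * w (u x) + (1 - p) / 2 * w (v x) + (2 * p - 1) * d x := by
  simp [T, dB]

lemma T_contract (p : ℝ) (hp : p ∈ Ioo (0 : ℝ) 1) : ContractingWith (1 / 2) (T p) := by
  refine ⟨by rw [← NNReal.coe_lt_coe]; norm_num, LipschitzWith.of_dist_le_mul fun f g => ?_⟩
  rw [BoundedContinuousFunction.dist_le (by positivity)]
  intro x
  rw [Real.dist_eq, T_apply, T_apply]
  have h1 : |f (u x) - g (u x)| ≤ dist f g := by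
    rw [← Real.dist_eq]; exact BoundedContinuousFunction.dist_coe_le_dist _
  have h2 : |f (v x) - g (v x)| ≤ dist f g := by
    rw [← Real.dist_eq]; exact BoundedContinuousFunction.dist_coe_le_dist _
  have h3 : p / 2 * f (u x) + (1 - p) / 2 * f (v x) + (2 * p - 1) * d x -
      (p / 2 * g (u x) + (1 - p) / 2 * g (v x) + (2 * p - 1) * d x)
      = p / 2 * (f (u x) - g (u x)) + (1 - p) / 2 * (f (v x) - g (v x)) := by ring
  rw [h3]
  obtain ⟨hp0, hp1⟩ := hp
  calc |p / 2 * (f (u x) - g (u x)) + (1 - p) / 2 * (f (v x) - g (v x))|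
      ≤ |p / 2 * (f (u x) - g (u x))| + |(1 - p) / 2 * (f (v x) - g (v x))| := abs_add_le _ _
    _ = p / 2 * |f (u x) - g (u x)| + (1 - p) / 2 * |f (v x) - g (v x)| := by
        rw [abs_mul, abs_mul, abs_of_pos (by linarith : 0 < p / 2),
          abs_of_pos (by linarith : 0 < (1 - p) / 2)]
    _ ≤ p / 2 * dist f g + (1 - p) / 2 * dist f g := by
        have a1 : 0 ≤ p / 2 := by linarith
        have a2 : 0 ≤ (1 - p) / 2 := by linarith
        gcongr
    _ = ((1 / 2 : NNReal) : ℝ) * dist f g := by push_cast; ring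

/-- The properties preserved under iteration. -/
def Good (w : ℝ → ℝ) : Prop :=
  (∀ x, w (x + 1) = w x) ∧ w 0 = 0 ∧ Monotone fun x => x + w x

lemma good_T (p : ℝ) (hp : p ∈ Ioo (0 : ℝ) 1) (w : BoundedContinuousFunction ℝ ℝ) (hw : Good w) :
    Good (T p w) := by
  obtain ⟨h1, h2, h3⟩ := hw
  have h1' : ∀ x, w (x + 2) = w x := fun x => by
    rw [show x + 2 = (x + 1) + 1 by ring, h1, h1]
  refine ⟨fun x => ?_, ?_, ?_⟩
  · rw [T_apply, T_apply, u_add_one, v_add_one, h1', h1', d_add_one]
  · rw [T_apply, u_zero, v_zero, h2, d_zero]; ring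
  · have key : (fun x => x + T p w x) =
        fun x => p / 2 * (u x + w (u x)) + (1 - p) / 2 * (v x + w (v x)) := by
      funext x
      rw [T_apply]
      simp only [u, v]
      ring
    rw [key]
    intro x y h
    have a := h3 (u_mono h)
    have b := h3 (v_mono h)
    simp only at a b ⊢
    have hp0 : 0 ≤ p / 2 := by linarith [hp.1]
    have hp1 : 0 ≤ (1 - p) / 2 := by linarith [hp.2]
    gcongr

lemma exists_A (p : ℝ) (hp : p ∈ Ioo (0 : ℝ) 1) :
    ∃ A : ℝ → ℝ, Continuous A ∧ (∀ x, A (x + 1) = A x + 1) ∧ A 0 = 0 ∧ Monotone A ∧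
      ∀ x, A x = p / 2 * A (u x) + (1 - p) / 2 * A (v x) := by
  have hc := T_contract p hp
  set w := ContractingWith.fixedPoint (T p) hc with hw
  have hfix : T p w = w := hc.fixedPoint_isFixedPt
  have hlim : Tendsto (fun n => (T p)^[n] 0) atTop (𝓝 w) := hc.tendsto_iterate_fixedPoint 0
  have hgood : ∀ n, Good ((T p)^[n] 0) := by
    intro n
    induction n with
    | zero => exact ⟨fun x => by simp, by simp, by
        intro x y h; simpa using h⟩
    | succ n ih =>
      rw [Function.iterate_succ_apply']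
      exact good_T p hp _ ih
  have hpt : ∀ x, Tendsto (fun n => ((T p)^[n] 0) x) atTop (𝓝 (w x)) := fun x =>
    ((continuous_eval_const x).tendsto w).comp hlim
  refine ⟨fun x => x + w x, continuous_id.add w.continuous, fun x => ?_, ?_, ?_, fun x => ?_⟩
  · have : w (x + 1) = w x := by
      refine tendsto_nhds_unique (hpt (x + 1)) ?_
      have := hpt x
      refine this.congr fun n => ?_
      rw [(hgood n).1]
    simp only [this]; ring
  · have : w 0 = 0 := by
      refine tendsto_nhds_unique (hpt 0) ?_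
      refine tendsto_const_nhds.congr fun n => ?_
      rw [(hgood n).2.1]
    simp [this]
  · intro x y h
    refine le_of_tendsto_of_tendsto' ((hpt x).const_add x) ((hpt y).const_add y) fun n => ?_
    exact (hgood n).2.2 h
  · have := congrArg (fun f : BoundedContinuousFunction ℝ ℝ => f x) hfix
    simp only [T_apply] at this
    simp only
    rw [← this]
    simp only [u, v]
    ring

/-- The strictly increasing functions `A`. -/
lemma exists_A' (p : ℝ) (hp : p ∈ Ioo (0 : ℝ) 1) :
    ∃ A : ℝ → ℝ, Continuous A ∧ (∀ x, A (x + 1) = A x + 1) ∧ A 0 = 0 ∧ StrictMono A ∧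
      ∀ x, A (4 * x) = 2 * A x + 2 * A (x + 1 / 2) - 2 * p := by
  obtain ⟨A, hA, h1, h0, hm, hself⟩ := exists_A p hp
  obtain ⟨hp0, hp1⟩ := hp
  have key : ∀ n : ℕ, ∀ x y : ℝ, 1 ≤ 2 ^ n * (y - x) → A x < A y := by
    intro n
    induction n with
    | zero =>
      intro x y h
      have h' : x + 1 ≤ y := by simpa using (by linarith : x + 1 ≤ y)
      have := hm h'
      rw [h1] at this
      linarith
    | succ n ih =>
      intro x y h
      have hxy : x ≤ y := by
        by_contra hc
        push Not at hc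
        have : (2 : ℝ) ^ (n + 1) * (y - x) < 0 := mul_neg_of_pos_of_neg (by positivity) (by linarith)
        linarith
      have hsum : (u y - u x) + (v y - v x) = 4 * (y - x) := by simp only [u, v]; ring
      have hu := hm (u_mono hxy)
      have hv := hm (v_mono hxy)
      rw [hself x, hself y]
      rcases le_total (2 * (y - x)) (u y - u x) with h2 | h2
      · have : A (u x) < A (u y) := by
          apply ih
          calc (1 : ℝ) ≤ 2 ^ (n + 1) * (y - x) := h
            _ = 2 ^ n * (2 * (y - x)) := by ring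
            _ ≤ 2 ^ n * (u y - u x) := by gcongr
        have a1 : 0 < p / 2 := by linarith
        have a2 : 0 ≤ (1 - p) / 2 := by linarith
        have b1 := mul_lt_mul_of_pos_left this a1
        have b2 := mul_le_mul_of_nonneg_left hv a2
        linarith
      · have h3 : 2 * (y - x) ≤ v y - v x := by linarith
        have : A (v x) < A (v y) := by
          apply ih
          calc (1 : ℝ) ≤ 2 ^ (n + 1) * (y - x) := h
            _ = 2 ^ n * (2 * (y - x)) := by ring
            _ ≤ 2 ^ n * (v y - v x) := by gcongr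
        have a1 : 0 ≤ p / 2 := by linarith
        have a2 : 0 < (1 - p) / 2 := by linarith
        have b1 := mul_le_mul_of_nonneg_left hu a1
        have b2 := mul_lt_mul_of_pos_left this a2
        linarith
  have hstrict : StrictMono A := by
    intro x y h
    obtain ⟨n, hn⟩ := exists_nat_gt (1 / (y - x))
    refine key n x y ?_
    have hpos : 0 < y - x := sub_pos.2 h
    have h2 : (n : ℝ) < 2 ^ n := by exact_mod_cast Nat.lt_two_pow_self
    rw [div_lt_iff₀ hpos] at hn
    nlinarith
  have hint : ∀ (m : ℤ) (x : ℝ), A (x + m) = A x + m := by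
    intro m
    induction m using Int.induction_on with
    | zero => intro x; simp
    | succ i ih =>
      intro x
      have := h1 (x + i)
      push_cast at *
      rw [← add_assoc, this, ih]; ring
    | pred i ih =>
      intro x
      have := h1 (x + (-(i : ℝ) - 1))
      have h' := ih x
      push_cast at *
      rw [show x + (-(i : ℝ) - 1) + 1 = x + -(i : ℝ) by ring, h'] at this
      linarith
  refine ⟨A, hA, h1, h0, hstrict, fun x => ?_⟩
  have e1 := hself x
  have e2 := hself (x + 1 / 2)
  rw [u_half, v_half] at e2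
  have e3 : A (v x + 2) = A (v x) + 2 := by simpa using hint 2 (v x)
  rw [e3] at e2
  have e4 : A (u x) + A (v x) = A (4 * x) := by
    have h2m : A (2 * (round x : ℝ)) = 2 * (round x : ℝ) := by
      have := hint (2 * round x) 0
      rw [h0] at this
      push_cast at this
      simpa using this
    have h4m : A (4 * x - 2 * (round x : ℝ)) = A (4 * x) - 2 * (round x : ℝ) := by
      have := hint (-(2 * round x)) (4 * x)
      push_cast at this
      rw [← sub_eq_add_neg, ← sub_eq_add_neg] at this
      exact this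
    rcases le_total (round x : ℝ) x with h | h
    · have hd : d x = x - round x := by rw [d, abs_of_nonneg (sub_nonneg.2 h)]
      rw [u, v, hd, show 2 * x + 2 * (x - (round x : ℝ)) = 4 * x - 2 * (round x : ℝ) by ring,
        show 2 * x - 2 * (x - (round x : ℝ)) = 2 * (round x : ℝ) by ring, h2m, h4m]
      ring
    · have hd : d x = round x - x := by
        rw [d, abs_of_nonpos (sub_nonpos.2 h)]; ring
      rw [u, v, hd, show 2 * x + 2 * ((round x : ℝ) - x) = 2 * (round x : ℝ) by ring,
        show 2 * x - 2 * ((round x : ℝ) - x) = 4 * x - 2 * (round x : ℝ) by ring, h2m, h4m]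
      ring
  rw [← e4, e1, e2]
  ring

lemma family (p : ℝ) (hp : p ∈ Ioo (0 : ℝ) 1) :
    ∃ φ : ℝ → ℝ, Continuous φ ∧ StrictMono φ ∧
      (∀ x, φ (∑ j ∈ Finset.range 4, φ (x - j)) = x) ∧
      φ ((4 - 2 * p) / 3) = (4 - 2 * p) / 3 ∧ φ ((4 - 2 * p) / 3 + 1) = (4 - 2 * p) / 3 + p := by
  obtain ⟨A, hA, h1, h0, hs, hf⟩ := exists_A' p hp
  have hnat : ∀ n : ℕ, A n = n := by
    intro n
    induction n with
    | zero => simpa using h0
    | succ n ih => push_cast; rw [h1, ih]
  have hnegnat : ∀ n : ℕ, A (-n) = -n := by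
    intro n
    induction n with
    | zero => simpa using h0
    | succ n ih =>
      have := h1 (-((n + 1 : ℕ) : ℝ))
      rw [show -((n + 1 : ℕ) : ℝ) + 1 = -n by push_cast; ring, ih] at this
      push_cast at *
      linarith
  have htop : Tendsto A atTop atTop := by
    refine tendsto_atTop.2 fun b => ?_
    filter_upwards [eventually_ge_atTop ((Nat.ceil b : ℕ) : ℝ)] with x hx
    calc b ≤ (Nat.ceil b : ℕ) := Nat.le_ceil b
      _ = A (Nat.ceil b : ℕ) := (hnat _).symm
      _ ≤ A x := hs.monotone hx
  have hbot : Tendsto A atBot atBot := by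
    refine tendsto_atBot.2 fun b => ?_
    filter_upwards [eventually_le_atBot (-((Nat.ceil (-b) : ℕ) : ℝ))] with x hx
    calc A x ≤ A (-(Nat.ceil (-b) : ℕ)) := hs.monotone hx
      _ = -(Nat.ceil (-b) : ℕ) := hnegnat _
      _ ≤ b := by linarith [Nat.le_ceil (-b)]
  have hsurj : Function.Surjective A := hA.surjective htop hbot
  let e : ℝ ≃o ℝ := hs.orderIsoOfSurjective A hsurj
  have he : ∀ t, e t = A t := fun t => rfl
  have hes : ∀ t, e.symm (A t) = t := fun t => by rw [← he, e.symm_apply_apply]
  set c : ℝ := (4 - 2 * p) / 3 with hc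
  have hhalf : A (1 / 2) = p := by
    have := hf 0
    simp only [mul_zero, h0, zero_add] at this
    linarith
  refine ⟨fun x => A (e.symm (x - c) / 2) + c, ?_, ?_, ?_, ?_, ?_⟩
  · exact (hA.comp ((e.symm.continuous.comp (continuous_id.sub continuous_const)).div_const 2)).add
      continuous_const
  · intro x y h
    have h1 : e.symm (x - c) < e.symm (y - c) := e.symm.strictMono (by linarith)
    have h2 : A (e.symm (x - c) / 2) < A (e.symm (y - c) / 2) := hs (by linarith)
    simp only
    linarith
  · intro x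
    obtain ⟨t, ht⟩ := hsurj (x - c)
    have hj : ∀ j : ℕ, A (t - j) = A t - j := by
      intro j
      induction j with
      | zero => simp
      | succ j ih =>
        have := h1 (t - ((j + 1 : ℕ) : ℝ))
        rw [show t - ((j + 1 : ℕ) : ℝ) + 1 = t - j by push_cast; ring, ih] at this
        push_cast at *
        linarith
    have hφ : ∀ j : ℕ, A (e.symm (x - j - c) / 2) + c = A ((t - j) / 2) + c := by
      intro j
      rw [show x - j - c = A (t - j) by rw [hj, ht]; ring, hes]
    have hx0 : x = A t + c := by linarith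
    simp only
    have hsum : ∑ j ∈ Finset.range 4, (A (e.symm (x - j - c) / 2) + c) = A (2 * t) + c := by
      rw [Finset.sum_congr rfl (fun j _ => hφ j)]
      simp only [Finset.sum_range_succ, Finset.sum_range_zero]
      push_cast
      have a0 := h1 (t / 2 - 1)
      rw [show t / 2 - 1 + 1 = t / 2 by ring] at a0
      have a1 := h1 ((t - 1) / 2)
      rw [show (t - 1) / 2 + 1 = t / 2 + 1 / 2 by ring] at a1
      have a2 := h1 ((t - 3) / 2)
      rw [show (t - 3) / 2 + 1 = (t - 1) / 2 by ring] at a2
      have a3 := hf (t / 2)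
      rw [show 4 * (t / 2) = 2 * t by ring] at a3
      rw [show (t - 0) / 2 = t / 2 by ring, show (t - 2) / 2 = t / 2 - 1 by ring]
      rw [hc]
      linarith
    rw [hsum, show A (2 * t) + c - c = A (2 * t) by ring, hes, show 2 * t / 2 = t by ring, hx0]
  · have : e.symm (c - c) = 0 := by rw [sub_self, ← h0]; simpa [h0] using hes 0
    simp only
    rw [this]; simp [h0]
  · have : e.symm (c + 1 - c) = 1 := by
      have : c + 1 - c = A 1 := by
        have := h1 0; rw [h0] at this; simp at this; rw [this]; ring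
      rw [this, hes]
    simp only
    rw [this, hhalf]; ring

theorem result :
    (∀ p ∈ Ioo (0 : ℝ) 1, ∃ φ : ℝ → ℝ, Continuous φ ∧ StrictMono φ ∧
      (∀ x, φ (∑ j ∈ Finset.range 4, φ (x - j)) = x) ∧
      φ ((4 - 2 * p) / 3) = (4 - 2 * p) / 3 ∧ φ ((4 - 2 * p) / 3 + 1) = (4 - 2 * p) / 3 + p) ∧
    ¬ (∀ r : ℕ, 2 ≤ r → ∀ φ : ℝ → ℝ, Continuous φ → Monotone φ →
        (∀ x : ℝ, φ (∑ j ∈ Finset.range r, φ (x - j)) = x) →
        ∀ x : ℝ, φ x = x / Real.sqrt r + (Real.sqrt r - 1) / 2) := by
  refine ⟨family, fun H => ?_⟩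
  obtain ⟨φ, h1, h2, h3, h4, h5⟩ := family (1 / 4) ⟨by norm_num, by norm_num⟩
  have h := H 4 (by norm_num) φ h1 h2.monotone h3
  have hs : Real.sqrt ((4 : ℕ) : ℝ) = 2 := by
    rw [show ((4 : ℕ) : ℝ) = 2 ^ 2 by norm_num]
    exact Real.sqrt_sq (by norm_num)
  rw [h, hs] at h4
  norm_num at h4

end Pool.Agent.Results.MP_39cb5d_an.NotUnique
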